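import Pool.Agent.Helper29.ZR.Props
import Pool.Agent.Helper48.AR.AsrR

/-!
# MP_b55b7c_an: from matrices over `ℂ + e A e` to matrices over `A`
-/

open scoped ENNReal NNReal InnerProductSpace ComplexOrder
open Filter Topology

attribute [-instance] CStarMatrix.instAlgebra CStarMatrix.instModule CStarMatrix.instSMul
  CStarMatrix.instMulAction CStarMatrix.instDistribMulAction

noncomputable section
namespace RC
universe u

section
variable {A : Type u} [CStarAlgebra A] [PartialOrder A] [StarOrderedRing A]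

omit [PartialOrder A] [StarOrderedRing A] in
theorem pcg_dg_conj {ι : Type} [Fintype ι] [DecidableEq ι] {e : A} (he : star e = e) :
    (dg ι e).conjTranspose = dg ι e := by
  ext i k
  show star ((dg ι e) k i) = (dg ι e) i k
  unfold dg
  show star (if k = i then e else 0) = if i = k then e else 0
  by_cases h : i = k
  · rw [if_pos h, if_pos h.symm, he]
  · rw [if_neg h, if_neg (Ne.symm h), star_zero]

/-- The row of matrices `(r_i)`. -/
def pcV {κ : Type} [DecidableEq κ] {J n : ℕ} (f : κ × Fin J ≃ Fin n) (r : Fin J → A) :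
    CStarMatrix κ (Fin n) A :=
  CStarMatrix.ofMatrix fun k p => if k = (f.symm p).1 then r (f.symm p).2 else 0

omit [PartialOrder A] [StarOrderedRing A] in
theorem pcV_mul {κ : Type} [Fintype κ] [DecidableEq κ] {J n : ℕ} (f : κ × Fin J ≃ Fin n)
    (r : Fin J → A) (e : A) (he : star e = e) (hr : ∑ i, r i * (e * e) * star (r i) = 1) :
    pcV f r * dg (Fin n) e * (pcV f r * dg (Fin n) e).conjTranspose = 1 := by
  have h1 : ∀ (k : κ) (p : Fin n), (pcV f r * dg (Fin n) e) k p = pcV f r k p * e := by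
    intro k p
    rw [CStarMatrix.mul_apply, Finset.sum_eq_single p]
    · congr 1
      show (if p = p then e else 0) = e
      rw [if_pos rfl]
    · intro q _ hq
      have : (dg (Fin n) e) q p = 0 := by
        show (if q = p then e else 0) = 0
        rw [if_neg hq]
      rw [this, mul_zero]
    · intro h
      exact absurd (Finset.mem_univ _) h
  ext k k'
  rw [CStarMatrix.mul_apply]
  have h2 : ∀ p : Fin n, (pcV f r * dg (Fin n) e) k p *
      (pcV f r * dg (Fin n) e).conjTranspose p k' =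
      pcV f r k p * (e * e) * star (pcV f r k' p) := by
    intro p
    have : (pcV f r * dg (Fin n) e).conjTranspose p k' = star (pcV f r k' p * e) := by
      rw [← h1]
      rfl
    rw [this, h1, star_mul, he]
    noncomm_ring
  rw [Finset.sum_congr rfl fun p _ => h2 p]
  have h3 : ∑ p : Fin n, pcV f r k p * (e * e) * star (pcV f r k' p) =
      ∑ q : κ × Fin J, (if k = q.1 then r q.2 else 0) * (e * e) *
        star (if k' = q.1 then r q.2 else 0) := by
    rw [← Equiv.sum_comp f]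
    refine Finset.sum_congr rfl fun q _ => ?_
    show (if k = (f.symm (f q)).1 then r (f.symm (f q)).2 else 0) * (e * e) *
      star (if k' = (f.symm (f q)).1 then r (f.symm (f q)).2 else 0) = _
    rw [Equiv.symm_apply_apply]
  rw [h3, Fintype.sum_prod_type, CStarMatrix.one_apply]
  by_cases hk : k = k'
  · rw [if_pos hk, Finset.sum_eq_single k]
    · rw [← hr]
      refine Finset.sum_congr rfl fun i _ => ?_
      rw [if_pos rfl, if_pos hk.symm]
    · intro k'' _ hk''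
      refine Finset.sum_eq_zero fun i _ => ?_
      rw [if_neg (Ne.symm hk''), zero_mul, zero_mul]
    · intro h
      exact absurd (Finset.mem_univ _) h
  · rw [if_neg hk]
    refine Finset.sum_eq_zero fun k'' _ => Finset.sum_eq_zero fun i _ => ?_
    show (if k = k'' then r i else 0) * (e * e) * star (if k' = k'' then r i else 0) = 0
    by_cases h : k = k''
    · rw [if_neg (c := k' = k'') (by rw [← h]; exact Ne.symm hk), star_zero, mul_zero]
    · rw [if_neg h, zero_mul, zero_mul]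

end

theorem pcGen29 (hRect : RectCP.{u}) (hLc : LcP.{u}) (hSw : CuSwapP.{u}) (hLe : CuLeAddP.{u})
    (hMo : QMonoP.{u}) : PCGenP.{u} := by
  intro A _ _ _ ν _ _ c e J r hc he hr hroom κ _ _ x η θ hη hθ
  have hes : star e = e := he.isSelfAdjoint
  obtain ⟨n, ⟨f⟩⟩ : ∃ n, Nonempty (κ × Fin J ≃ Fin n) := ⟨_, ⟨Fintype.equivFin _⟩⟩
  obtain ⟨V, hV⟩ : ∃ V : CStarMatrix κ (Fin n) A, V = pcV f r := ⟨_, rfl⟩
  obtain ⟨W, hW⟩ : ∃ W : CStarMatrix κ (Fin n) A, W = V * dg (Fin n) e := ⟨_, rfl⟩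
  have hWW : W * W.conjTranspose = 1 := by
    rw [hW, hV]
    exact pcV_mul f r e hes hr
  obtain ⟨Q, hQ⟩ : ∃ Q : CStarMatrix (Fin n) (Fin n) A, Q = W.conjTranspose * W := ⟨_, rfl⟩
  obtain ⟨N, hN⟩ : ∃ N : CStarMatrix (Fin n) (Fin n) A, N = W.conjTranspose * x * W :=
    ⟨_, rfl⟩
  have hWQ : W * (W.conjTranspose * W) = W := by
    rw [← cm_assoc, hWW, cm_one_mul]
  have hQW : W.conjTranspose * W * W.conjTranspose = W.conjTranspose := by
    rw [cm_assoc, hWW, cm_mul_one]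
  have hQQ : Q * Q = Q := by
    rw [hQ, cm_assoc W.conjTranspose W, hWQ]
  have hQN : Q * N = N := by
    rw [hQ, hN, ← cm_assoc, ← cm_assoc, hQW]
  have hNQ : N * Q = N := by
    rw [hQ, hN, cm_assoc (W.conjTranspose * x) W, hWQ]
  -- constants
  obtain ⟨κ', hκ1, hκ2, hκ3⟩ : ∃ κ' : ℝ, 1 ≤ κ' ∧ ‖Q‖ ≤ κ' ∧ ‖1 - Q‖ ≤ κ' :=
    ⟨‖Q‖ + ‖1 - Q‖ + 1, by linarith [norm_nonneg Q, norm_nonneg (1 - Q)],
      by linarith [norm_nonneg (1 - Q)], by linarith [norm_nonneg Q]⟩
  obtain ⟨t, ht0, ht1, ht2⟩ : ∃ t : ℝ, 0 < t ∧ κ' ^ 2 * t ≤ 1 / 2 ∧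
      ‖W‖ * (2 * (κ' ^ 2 * t)) * ‖W.conjTranspose‖ ≤ η := by
    have hc : 0 ≤ ‖W‖ * ‖W.conjTranspose‖ := by positivity
    refine ⟨min (1 / 2) (η / (2 * (‖W‖ * ‖W.conjTranspose‖) + 1)) / κ' ^ 2, by positivity, ?_, ?_⟩
    · rw [mul_div_cancel₀ _ (by positivity)]
      exact min_le_left _ _
    · rw [mul_div_cancel₀ _ (by positivity)]
      have h1 : min (1 / 2) (η / (2 * (‖W‖ * ‖W.conjTranspose‖) + 1)) ≤
        η / (2 * (‖W‖ * ‖W.conjTranspose‖) + 1) := min_le_right _ _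
      have h3 : 0 < min (1 / 2) (η / (2 * (‖W‖ * ‖W.conjTranspose‖) + 1)) := by positivity
      generalize min (1 / 2) (η / (2 * (‖W‖ * ‖W.conjTranspose‖) + 1)) = d at h1 h3
      rw [le_div_iff₀ (by positivity)] at h1
      nlinarith
  -- the matrix over `ℂ + e A e`
  obtain ⟨m', Y', Z', a1, b1, b2, L, hL, hSm, hn1, hn2, heq⟩ := hRect A ν c e hc he hroom n
    (1 : Matrix (Fin n) (Fin n) ℂ) (V.conjTranspose * (x - 1) * V) 0 t θ ht0 hθ
  have hX : fm (1 : Matrix (Fin n) (Fin n) ℂ) (V.conjTranspose * (x - 1) * V) e =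
      N + (1 - Q) := by
    unfold fm
    have h1 : (CStarMatrix.ofMatrix (fun i l => (1 : Matrix (Fin n) (Fin n) ℂ) i l • (1 : A)) :
        CStarMatrix (Fin n) (Fin n) A) = 1 := by
      ext i l
      rw [CStarMatrix.one_apply]
      show (1 : Matrix (Fin n) (Fin n) ℂ) i l • (1 : A) = _
      by_cases h : i = l
      · rw [if_pos h, h, Matrix.one_apply_eq, one_smul]
      · rw [if_neg h, Matrix.one_apply_ne h, zero_smul]
    have h2 : dg (Fin n) e * (V.conjTranspose * (x - 1) * V) * dg (Fin n) e =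
        W.conjTranspose * (x - 1) * W := by
      rw [hW, cm_conj_mul, pcg_dg_conj hes]
      simp only [cm_assoc]
    have h3 : W.conjTranspose * (x - 1) * W = N - Q := by
      rw [cm_mul_sub, cm_sub_mul, cm_mul_one, ← hN, ← hQ]
    rw [h1, h2, h3]
    abel
  obtain ⟨Z, hZ⟩ : ∃ Z : CStarMatrix (Fin n) (Fin n) A, Z = fm m' Y' e := ⟨_, rfl⟩
  obtain ⟨U, hU⟩ : ∃ U : CStarMatrix ν (Fin n) A, U = c * Z' * dg (Fin n) e := ⟨_, rfl⟩
  rw [hX, ← hZ] at hn1
  rw [← hZ, ← hU] at heq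
  obtain ⟨Y1, hG1, hG2, hG3⟩ := ar_corner Q N Z κ' t hQQ hQN hNQ hκ2 hκ3 ht1 hn1
  obtain ⟨Gm, hGm⟩ : ∃ Gm : CStarMatrix (Fin n) (Fin n) A, Gm = Y1 * Q := ⟨_, rfl⟩
  rw [← hGm] at hG1 hG2 hG3
  have hQS : Q * (Z * Gm) = Z * Gm := by
    rw [sub_mul, one_mul, sub_eq_zero] at hG2
    exact hG2.symm
  -- the identity in the corner
  have hid : Q * a1 * (Z * Gm) + (Q * b1) * (U * Gm) + (Q * b2) * (L * Gm) = Q := by
    have h1 : Q * (a1 * Z + b1 * U + b2 * L) * Gm = Q := by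
      rw [heq, mul_one, hG1]
    rw [ar_mul_add, ar_mul_add, ar_add_mul, ar_add_mul] at h1
    rw [← cm_assoc Q a1 Z, ← cm_assoc Q b1 U, ← cm_assoc Q b2 L, cm_assoc (Q * a1) Z,
      cm_assoc (Q * b1) U, cm_assoc (Q * b2) L] at h1
    exact h1
  obtain ⟨x', hx'⟩ : ∃ x' : CStarMatrix κ κ A, x' = W * (Z * Gm) * W.conjTranspose := ⟨_, rfl⟩
  obtain ⟨y, hy⟩ : ∃ y : CStarMatrix ν κ A,
    y = Z' * dg (Fin n) e * Gm * W.conjTranspose := ⟨_, rfl⟩
  have hcy : U * Gm * W.conjTranspose = c * y := by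
    rw [hU, hy]
    simp only [cm_assoc]
  obtain ⟨P1, hP1⟩ : ∃ P1 : CStarMatrix κ κ A, P1 = W * (Q * a1) * W.conjTranspose := ⟨_, rfl⟩
  obtain ⟨P2, hP2⟩ : ∃ P2 : CStarMatrix κ ν A, P2 = W * (Q * b1) := ⟨_, rfl⟩
  obtain ⟨P3, hP3⟩ : ∃ P3 : CStarMatrix κ (Fin n) A, P3 = W * (Q * b2) := ⟨_, rfl⟩
  obtain ⟨T, hT⟩ : ∃ T : CStarMatrix (Fin n) κ A, T = L * Gm * W.conjTranspose := ⟨_, rfl⟩
  have hone : P1 * x' + P2 * (c * y) + P3 * T = 1 := by
    have h1 : W * Q * W.conjTranspose = 1 := by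
      rw [hQ, hWQ, hWW]
    have h2 : W.conjTranspose * W * (Z * Gm) = Z * Gm := by rw [← hQ]; exact hQS
    rw [← hid, ar_mul_add, ar_mul_add, ar_add_mul, ar_add_mul] at h1
    rw [← h1, hP1, hx', hP2, ← hcy, hP3, hT]
    congr 1
    · congr 1
      · conv_rhs => rw [← h2]
        simp only [cm_assoc]
      · simp only [cm_assoc]
    · simp only [cm_assoc]
  -- remove the rectangular factors
  have hlc : P1 * x' + ∑ i : Fin 2, ![(1 : CStarMatrix κ κ A), 1] i *
      ![P2 * (c * y), P3 * T] i = 1 := by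
    rw [Fin.sum_univ_two]
    show P1 * x' + (1 * (P2 * (c * y)) + 1 * (P3 * T)) = 1
    rw [one_mul, one_mul, ← add_assoc]
    exact hone
  obtain ⟨-, a, b, hab⟩ := hLc (CStarMatrix κ κ A) 2 x' P1 ![(1 : CStarMatrix κ κ A), 1]
    ![P2 * (c * y), P3 * T] hlc
  rw [Fin.sum_univ_two] at hab
  have hab' : a * x' + b * (sq (P2 * (c * y)) + sq (P3 * T)) = 1 := hab
  refine ⟨x', y, a, b * (P2 * (c * y)).conjTranspose * P2, b, sq (P3 * T), ?_,
    star_mul_self_nonneg _, ?_, ?_⟩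
  · have h1 : x - x' = W * (N - Z * Gm) * W.conjTranspose := by
      rw [cm_mul_sub, cm_sub_mul, hN, ← hx']
      have h2 : W * (W.conjTranspose * x * W) * W.conjTranspose = x := by
        calc W * (W.conjTranspose * x * W) * W.conjTranspose =
            (W * W.conjTranspose) * x * (W * W.conjTranspose) := by simp only [cm_assoc]
          _ = x := by rw [hWW, cm_one_mul, cm_mul_one]
      rw [h2]
    rw [h1]
    calc _ ≤ ‖W * (N - Z * Gm)‖ * ‖W.conjTranspose‖ := cm_norm_mul_le _ _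
      _ ≤ (‖W‖ * ‖N - Z * Gm‖) * ‖W.conjTranspose‖ := by
        gcongr
        exact cm_norm_mul_le _ _
      _ ≤ (‖W‖ * (2 * (κ' ^ 2 * t))) * ‖W.conjTranspose‖ := by
        rw [norm_sub_rev]
        gcongr
      _ ≤ η := ht2
  · intro φ σ hφ
    have h1 : sq (P3 * T) = (P3 * (L * (Gm * W.conjTranspose))).conjTranspose *
        (P3 * (L * (Gm * W.conjTranspose))) := by
      rw [hT, cm_assoc L Gm]
      rfl
    have h2 : (P3 * (L * (Gm * W.conjTranspose))).conjTranspose *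
        (P3 * (L * (Gm * W.conjTranspose))) ≤
        ‖P3.conjTranspose * P3‖ • ((L * (Gm * W.conjTranspose)).conjTranspose *
          (L * (Gm * W.conjTranspose))) := by
      have h3 : P3.conjTranspose * P3 ≤
          ‖P3.conjTranspose * P3‖ • (1 : CStarMatrix (Fin n) (Fin n) A) := by
        have h4 := (cm_conj_mul_nonneg P3).isSelfAdjoint.le_algebraMap_norm_self
        rwa [Algebra.algebraMap_eq_smul_one] at h4
      have h5 := cm_conj_le' (L * (Gm * W.conjTranspose)) h3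
      rw [cm_mul_rsmul, cm_rsmul_mul, cm_mul_one] at h5
      refine le_trans (le_of_eq ?_) h5
      rw [cm_conj_mul P3]
      simp only [cm_assoc]
    have h0 : 0 ≤ (L * (Gm * W.conjTranspose)).conjTranspose * (L * (Gm * W.conjTranspose)) :=
      cm_conj_mul_nonneg _
    rw [h1]
    refine le_trans ?_ ((ar_rank_col hSw hLe hMo σ L hL (Gm * W.conjTranspose)).trans (hSm φ σ hφ))
    refine hMo A σ _ _ _ _ (cm_conj_mul_nonneg _) h0 ?_
    intro ε hε
    have h6 := hLe A κ _ _ 0 le_rfl (cm_conj_mul_nonneg (P3 * (L * (Gm * W.conjTranspose))))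
      (smul_nonneg (norm_nonneg (P3.conjTranspose * P3)) h0)
      (by rw [zero_smul, add_zero]; exact h2)
    rw [cut_zero (cm_conj_mul_nonneg _)] at h6
    obtain ⟨v, hv⟩ := h6 ε hε
    refine ⟨√‖P3.conjTranspose * P3‖ • v, ?_⟩
    rw [cm_conj_rsmul, cm_rsmul_mul, cm_mul_rsmul, cm_rsmul_mul, smul_smul,
      Real.mul_self_sqrt (norm_nonneg _)]
    rw [cm_mul_rsmul, cm_rsmul_mul] at hv
    exact hv
  · have h1 : b * (P2 * (c * y)).conjTranspose * P2 * (c * y) =
        b * sq (P2 * (c * y)) := by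
      unfold sq
      rw [← cm_star_eq]
      simp only [cm_assoc]
    rw [h1, ← hab', mul_add, add_assoc]

end RC
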