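import Pool.Agent.Helper29.ZR.Fin
import Pool.Agent.Helper29.ZR.PCGen
import Pool.Agent.Helper29.AR.All
import Pool.Agent.Helper16.ZR.RoomB
import Pool.Agent.Helper33.ZR.AsrX
import Pool.Agent.Helper39.ZR.RoomX
import Pool.Agent.Helper49.ZR.RkS
import Pool.Agent.Helper51.ZR.AsrPC
import Pool.Agent.Helper75.ZR.CompX
import Pool.Agent.Helper79.ZR.TF
import Pool.Agent.Helper8.ZR.AsrF
import Pool.Agent.Helper87.ZR.RectC
import Pool.Agent.Helper89.ZR.Pert

/-!
# MP_b55b7c_an: comparison gives approximate stable rank one, all pieces together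
-/

open scoped ENNReal NNReal InnerProductSpace ComplexOrder
open Filter Topology

attribute [-instance] CStarMatrix.instAlgebra CStarMatrix.instModule CStarMatrix.instSMul
  CStarMatrix.instMulAction CStarMatrix.instDistribMulAction

noncomputable section
namespace RC
universe u

theorem rkSZ : RkSP.{u} := rkS cuLeAdd_all cuAdd_all qDsum_all qMono_all
theorem pertZ : PertP.{u} := pert qMono_all
theorem compXZ : CompXP.{u} := compXP_75 qMono_all matT_h5 qPull_all
theorem roomXZ : RoomXP.{u} :=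
  roomXP qPull_all cuAdd_all qMono_all qDsum_all rkSZ pertZ compXZ
theorem roomBZ : RoomBP.{u} :=
  roomB pertZ rkSZ mpP qPull_all dimA qMono_all qDsum_all cuAdd_all cuSwap_all
theorem rectCZ : RectCP.{u} := rectCP qMono_all qDsum_all qBasicP
theorem asrPCZ : AsrPCP.{u} := asrPC_51 lcP dimA cuSwap_all cuLeAdd_all qMono_all
theorem tFZ : TFP.{u} :=
  H79TF.tfP (sL2P sL1P) smallEA dimA mpP cuAdd_all qMono_all qDsum_all qBasicP qOneP cuSwap_all
theorem pCGenZ : PCGenP.{u} := pcGen29 rectCZ lcP cuSwap_all cuLeAdd_all qMono_all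
theorem asrXZ : AsrXP.{u} := asrX asrPCZ smallEA dimA qDg_all qOneP roomXZ pCGenZ
theorem asrFZ : AsrFP.{u} := H8ZR.asrFP sB_all mpP tFZ smallEA roomBZ pCGenZ asrPCZ

end RC
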