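import Pool.Agent.Helper29.ZR.Props
import Pool.Agent.Helper29.AR.Fin
import Pool.Agent.Helper29.UG.Fin
import Pool.Agent.Helper45.RC.DomM

/-!
# MP_b55b7c_an: comparison gives approximate stable rank one, the final assembly
-/

open scoped ENNReal NNReal InnerProductSpace ComplexOrder
open Filter Topology

attribute [-instance] CStarMatrix.instAlgebra CStarMatrix.instModule CStarMatrix.instSMul
  CStarMatrix.instMulAction CStarMatrix.instDistribMulAction

noncomputable section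
namespace RC
universe u

/-- The comparison property gives tracial comparison with the same gap. -/
theorem tcg_of_comp (hM : QMonoP.{u}) (hB : QBasicP.{u}) {M : Type u} [CStarAlgebra M]
    [PartialOrder M] [StarOrderedRing M] {ρ r : ℝ} (h : HasCompD M ρ) (hr : ρ ≤ r) :
    TCG M r := by
  intro ι κ _ _ _ _ a b ha hb hlt δ hδ
  obtain ⟨v, hv⟩ := h ι κ a b ha hb (fun σ => lt_of_le_of_lt (by linarith) (hlt σ)) δ hδ
  refine ⟨v.conjTranspose, 0, le_rfl, ?_, fun σ => ?_⟩
  · have hsa : IsSelfAdjoint (a - v * b * v.conjTranspose) :=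
      ha.isSelfAdjoint.sub (cm_conj_nonneg v hb).isSelfAdjoint
    have h1 := hsa.le_algebraMap_norm_self
    have h2 : algebraMap ℝ (CStarMatrix ι ι M) ‖a - v * b * v.conjTranspose‖ ≤
        algebraMap ℝ (CStarMatrix ι ι M) δ := by
      refine algebraMap_mono _ ?_
      rw [norm_sub_rev]
      exact hv.le
    have h3 := h1.trans h2
    rw [Algebra.algebraMap_eq_smul_one, sub_le_iff_le_add] at h3
    rw [cm_conj_conj, add_zero, add_comm]
    exact h3
  · have h1 := domM_dim_zero hM hB σ ι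
    linarith

theorem tcg_of_tcomp {M : Type u} [CStarAlgebra M] [PartialOrder M] [StarOrderedRing M]
    (h : TComp M) {r : ℝ} (hr : 0 ≤ r) : TCG M r := by
  intro ι κ _ _ _ _ a b ha hb hlt δ hδ
  exact h ι κ a b ha hb (fun σ => lt_of_le_of_lt (by linarith) (hlt σ)) δ hδ

theorem tcg_of_rc (hL : LimEqP.{u}) (hM : QMonoP.{u}) (hB : QBasicP.{u}) {M : Type u}
    [CStarAlgebra M] [PartialOrder M] [StarOrderedRing M] (h : rc M = 0) {r : ℝ} (hr : 0 < r) :
    TCG M r := by
  have h1 : rc M < ENNReal.ofReal r := by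
    rw [h]
    exact ENNReal.ofReal_pos.2 hr
  unfold rc at h1
  rw [iInf_lt_iff] at h1
  obtain ⟨s, hs⟩ := h1
  rw [iInf_lt_iff] at hs
  obtain ⟨hc, hs⟩ := hs
  refine tcg_of_comp hM hB ((hasComp_iff hL _).1 hc) ?_
  have h2 : (s : ℝ≥0∞) < (r.toNNReal : ℝ≥0∞) := hs
  have h3 : s < r.toNNReal := by exact_mod_cast h2
  have h4 : (s : ℝ) < r.toNNReal := by exact_mod_cast h3
  rw [Real.coe_toNNReal r hr.le] at h4
  exact h4.le

/-- Tracial comparison gives approximate stable rank one: the case of the trivial group. -/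
theorem asr_of_tcomp (hX : AsrXP.{u}) {A : Type u} [CStarAlgebra A] [PartialOrder A]
    [StarOrderedRing A] (hs : Simp A) (hN : NoFin A) (h : TComp A) : ASR A := by
  refine hX A A PUnit (fun _ => StarAlgEquiv.refl ℂ A) (StarAlgHom.id ℂ A) (fun _ => 1)
    (fun _ _ _ => rfl) ⟨fun _ => one_mem _, fun _ _ => (one_mul 1).symm, fun _ a => ?_, ?_⟩
    hs hN fun r hr => tcg_of_tcomp h hr.le
  · simp
  · intro r
    refine ⟨fun _ => r, by simp, ?_⟩
    intro f hf
    funext i
    simpa using hf.symm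

/-- Approximate stable rank one of `A` in all cases. -/
theorem asr_of_cases (hL : LimEqP.{u}) (hM : QMonoP.{u}) (hB : QBasicP.{u})
    (hX : AsrXP.{u}) (hF : AsrFP.{u}) (hMa : MartP.{u}) (hV : VarP.{u}) (hVR : VarRP.{u})
    (hTC : TCompGP.{u}) (hDI : DomInvP.{u}) (hNF : NoFinP.{u}) (hSi : SimpP.{u})
    (A : Type u) [CStarAlgebra A] [PartialOrder A] [StarOrderedRing A]
    (hs : IsSimpleC A) (hinf : ¬ FiniteDimensional ℂ A) (C : ℝ)
    (hCd : ∀ σ : QTrace A, ∃ φ : TState A, ∀ x : A, 0 ≤ x →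
      σ.τ Unit (one1 x) ≤ C * (φ.φ x).re)
    (G : Type) [Group G] [Fintype G] (α : G → A ≃⋆ₐ[ℂ] A) (hα : IsAct α)
    (h : ASR A ∨ UGamma A ∨
      (∃ (B : Type u) (_ : CStarAlgebra B) (_ : PartialOrder B) (_ : StarOrderedRing B)
        (j : B →⋆ₐ[ℂ] A), IsFix α j ∧ rc B = 0) ∨
      ∃ (R : Type u) (_ : CStarAlgebra R) (_ : PartialOrder R) (_ : StarOrderedRing R)
        (k : A →⋆ₐ[ℂ] R) (w : G → R), IsCross α k w ∧ (UGamma R ∨ rc R = 0)) : ASR A := by
  have hsA := hSi A hs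
  have hN : NoFin A := noFin_self hNF hsA hinf
  have hG : (UGamma A ∨ ∃ (R : Type u) (_ : CStarAlgebra R) (_ : PartialOrder R)
      (_ : StarOrderedRing R) (k : A →⋆ₐ[ℂ] R) (w : G → R), IsCross α k w ∧ UGamma R) →
      ASR A := by
    intro hΓ
    obtain ⟨C', hC', hD⟩ := hDI A C hCd G α hα
    exact asr_of_tcomp hX hsA hN (hTC A G α C' (eHalf_of hMa hV hVR A G α hα hΓ) hC' hD)
  rcases h with h | h | ⟨B, _, _, _, j, hj, h⟩ | ⟨R, _, _, _, k, w, hk, h | h⟩
  · exact h
  · exact hG (Or.inl h)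
  · exact hF A B G α j hα hj hsA hN fun r hr => tcg_of_rc hL hM hB h hr
  · exact hG (Or.inr ⟨R, _, _, _, k, w, hk, h⟩)
  · exact hX A R G α k w hα hk hsA hN fun r hr => tcg_of_rc hL hM hB h hr

end RC
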