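import Pool.Agent.Helper29.ZR.All

/-!
# MP_b55b7c_an: conditions on `A`, `A^α` or `C*(G,A,α)` which give approximate stable rank one
-/

open scoped ENNReal NNReal InnerProductSpace ComplexOrder
open Filter Topology

attribute [-instance] CStarMatrix.instAlgebra CStarMatrix.instModule CStarMatrix.instSMul
  CStarMatrix.instMulAction CStarMatrix.instDistribMulAction

noncomputable section
namespace RC
universe u

section
variable (M : Type u) [CStarAlgebra M] [PartialOrder M] [StarOrderedRing M]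

/-- One tracial state dominates all quasitraces. -/
def OneDom : Prop :=
  ∃ (φ : TState M) (C : ℝ), ∀ (σ : QTrace M) (x : M), 0 ≤ x →
    σ.τ Unit (one1 x) ≤ C * (φ.φ x).re

/-- One of: approximate stable rank one, uniform property Gamma, one tracial state dominates all
quasitraces, radius of comparison zero. -/
def Good : Prop :=
  ASR M ∨ UGamma M ∨ OneDom M ∨ rc M = 0

end

section
variable {M : Type u} [CStarAlgebra M] [PartialOrder M] [StarOrderedRing M]

theorem tComp_of_uGamma (h : UGamma M) {C : ℝ} (hC : 0 ≤ C) (hD : DomT M C) : TComp M := by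
  have h1 := eHalf_of martG (UGVar2.var n2P) (varRP n2P) M Unit trivAct trivAct_isAct (Or.inl h)
  refine tCompG_all M Unit trivAct C h1 hC fun σ => ?_
  obtain ⟨φ, σ₀, hQ, hd⟩ := hD σ
  exact ⟨φ, σ₀, fun _ _ => rfl, hQ, hd⟩

theorem tComp_of_oneDom (h : OneDom M) : TComp M := by
  obtain ⟨φ, C, hCd⟩ := h
  have hC0 : 0 ≤ C := by
    obtain ⟨σ, hσ⟩ := qOfTP M φ
    have h1 := hCd σ 1 zero_le_one
    rw [hσ Unit, φ.one] at h1
    simp only [Complex.one_re, mul_one] at h1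
    have h2 : (∑ i : Unit, (φ.φ ((one1 (1 : M)) i i)).re) = 1 := by
      simp [one1, φ.one]
    rw [h2] at h1
    linarith
  obtain ⟨σ₀, hσ₀⟩ := qOfTP M (avg φ (trivAct (A := M)))
  have hD := dom_avg qBasicP φ C hC0 hCd (trivAct (A := M)) trivAct_isAct σ₀ hσ₀
  have hC0' : 0 ≤ C * Fintype.card Unit := by positivity
  exact tComp_of maxP M _ σ₀ _ hσ₀ hC0' hD

theorem tc_of_good (h : Good M) {C : ℝ} (hC : 0 ≤ C) (hD : DomT M C) (r : ℝ) (hr : 0 < r) :
    TCG M r := by
  rcases h with h | h | h | h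
  · exact tcg_of_tcomp (tCompLA M C h hC hD) hr.le
  · exact tcg_of_tcomp (tComp_of_uGamma h hC hD) hr.le
  · exact tcg_of_tcomp (tComp_of_oneDom h) hr.le
  · exact tcg_of_rc (limEqP qBasicP) qMono_all qBasicP h hr

end

/-- Approximate stable rank one of `A`. -/
theorem asr_of_good (A : Type u) [CStarAlgebra A] [PartialOrder A]
    [StarOrderedRing A] (hs : IsSimpleC A) (hinf : ¬ FiniteDimensional ℂ A) (C : ℝ)
    (hCd : ∀ σ : QTrace A, ∃ φ : TState A, ∀ x : A, 0 ≤ x →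
      σ.τ Unit (one1 x) ≤ C * (φ.φ x).re)
    (G : Type) [Group G] [Fintype G] (α : G → A ≃⋆ₐ[ℂ] A) (hα : IsAct α)
    (h : Good A ∨
      (∃ (B : Type u) (_ : CStarAlgebra B) (_ : PartialOrder B) (_ : StarOrderedRing B)
        (j : B →⋆ₐ[ℂ] A), IsFix α j ∧ Good B) ∨
      ∃ (R : Type u) (_ : CStarAlgebra R) (_ : PartialOrder R) (_ : StarOrderedRing R)
        (k : A →⋆ₐ[ℂ] R) (w : G → R), IsCross α k w ∧ Good R) : ASR A := by
  classical
  have hsA := simpP A hs
  have hN : NoFin A := noFin_self noFinP hsA hinf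
  obtain ⟨C', hC', hD⟩ := domT_of domInvP C hCd
  rcases h with h | ⟨B, _, _, _, j, hj, h⟩ | ⟨R, _, _, _, k, w, hk, h⟩
  · refine asrXZ A A PUnit (fun _ => StarAlgEquiv.refl ℂ A) (StarAlgHom.id ℂ A) (fun _ => 1)
      (fun _ _ _ => rfl) ⟨fun _ => one_mem _, fun _ _ => (one_mul 1).symm, fun _ a => ?_, ?_⟩
      hsA hN (tc_of_good h hC' hD)
    · simp
    · intro r
      refine ⟨fun _ => r, by simp, ?_⟩
      intro f hf
      funext i
      simpa using hf.symm
  · obtain ⟨C₂, hC₂, hD₂⟩ := domTFixP sB_all qOfTP mpP A B G α j hα hj hsA C' hC' hD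
    exact asrFZ A B G α j hα hj hsA hN (tc_of_good h hC₂ hD₂)
  · obtain ⟨β, jR, hβ, hjR, htr, hdg⟩ := crossGP A G α R k w hα hk
    have hCm : 0 ≤ C' * Fintype.card G := by positivity
    obtain ⟨C₂, hC₂, hD₂⟩ := domTFixP sB_all qOfTP mpP (CStarMatrix G G A) R G β jR hβ hjR
      ((matSimpP A G).1 hsA) _ hCm (domT_mat domInvMat_all C' hC' hD G)
    exact asrXZ A R G α k w hα hk hsA hN (tc_of_good h hC₂ hD₂)

theorem finalZ (A : Type u) [CStarAlgebra A] [PartialOrder A]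
    [StarOrderedRing A] (hs : IsSimpleC A) (hinf : ¬ FiniteDimensional ℂ A) (C : ℝ)
    (hCd : ∀ σ : QTrace A, ∃ φ : TState A, ∀ x : A, 0 ≤ x →
      σ.τ Unit (one1 x) ≤ C * (φ.φ x).re)
    (G : Type) [Group G] [Fintype G] (α : G → A ≃⋆ₐ[ℂ] A) (hα : IsAct α)
    (h : Good A ∨
      (∃ (B : Type u) (_ : CStarAlgebra B) (_ : PartialOrder B) (_ : StarOrderedRing B)
        (j : B →⋆ₐ[ℂ] A), IsFix α j ∧ Good B) ∨
      ∃ (R : Type u) (_ : CStarAlgebra R) (_ : PartialOrder R) (_ : StarOrderedRing R)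
        (k : A →⋆ₐ[ℂ] R) (w : G → R), IsCross α k w ∧ Good R) :
    (∀ (B : Type u) [CStarAlgebra B] [PartialOrder B] [StarOrderedRing B] (j : B →⋆ₐ[ℂ] A),
      IsFix α j → rc A ≤ rc B) ∧
    (∀ (R : Type u) [CStarAlgebra R] [PartialOrder R] [StarOrderedRing R] (k : A →⋆ₐ[ℂ] R)
      (w : G → R), IsCross α k w → rc A / Fintype.card G ≤ rc R) :=
  finalA A hs hinf (asr_of_good A hs hinf C hCd G α hα h) C hCd G α hα

end RC
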