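import Pool.Agent.Helper29.AR.Props

/-!
# MP_b55b7c_an: from comparison in `A^α` or `A ⋊ G` to approximate stable rank one of `A`,
the statements of the packets
-/

open scoped ENNReal NNReal InnerProductSpace ComplexOrder
open Filter Topology

attribute [-instance] CStarMatrix.instAlgebra CStarMatrix.instModule CStarMatrix.instSMul
  CStarMatrix.instMulAction CStarMatrix.instDistribMulAction

noncomputable section
namespace RC
universe u

/-- Tracial comparison with a uniform gap `r`. -/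
def TCG (M : Type u) [CStarAlgebra M] [PartialOrder M] [StarOrderedRing M] (r : ℝ) : Prop :=
  ∀ (ι κ : Type) [Fintype ι] [DecidableEq ι] [Fintype κ] [DecidableEq κ]
    (a : CStarMatrix ι ι M) (b : CStarMatrix κ κ M), 0 ≤ a → 0 ≤ b →
    (∀ σ : QTrace M, σ.dim a + r < σ.dim b) → ∀ δ : ℝ, 0 < δ →
    ∃ (y : CStarMatrix κ ι M) (c : CStarMatrix ι ι M), 0 ≤ c ∧
      a ≤ y.conjTranspose * b * y + c + δ • (1 : CStarMatrix ι ι M) ∧
      ∀ σ : QTrace M, σ.dim c < δ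

section
variable {A : Type u} [CStarAlgebra A] [PartialOrder A] [StarOrderedRing A]

/-- `(1 - S/δ)_+`. -/
def nE {ν : Type} [Fintype ν] [DecidableEq ν] (δ : ℝ) (S : CStarMatrix ν ν A) :
    CStarMatrix ν ν A :=
  cfc (fun t : ℝ => max 0 (1 - t / δ)) S

/-- `c` repeated `G` times along the diagonal. -/
def rep {ν : Type} (G : Type) [DecidableEq G] (c : CStarMatrix ν ν A) :
    CStarMatrix (G × ν) (G × ν) A :=
  CStarMatrix.ofMatrix fun p q => if p.1 = q.1 then c p.2 q.2 else 0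

/-- Columns from `e` to `c` are limits of columns which are bounded below on `e`, up to elements
`e l e` with `l` of rank at most `θ`. -/
def RoomL {ν : Type} [Fintype ν] [DecidableEq ν] (c : CStarMatrix ν ν A) (e : A) (θ : ℝ) :
    Prop :=
  ∀ (z : CStarMatrix ν Unit A) (κ ε : ℝ), 0 < κ → 0 < ε →
    ∃ (z' : CStarMatrix ν Unit A) (δ : ℝ) (l : A), 0 < δ ∧ 0 ≤ l ∧ SmT θ l ∧
      ‖c * z' * one1 e - c * z * one1 e‖ ≤ κ ∧
      δ • one1 (cut e ε * cut e ε) ≤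
        (c * z' * one1 e).conjTranspose * (c * z' * one1 e) + one1 (e * l * e)

/-- The matrix `m + e Y e`, with `m` a scalar matrix. -/
def fm {ι : Type} [Fintype ι] [DecidableEq ι] (m : Matrix ι ι ℂ) (Y : CStarMatrix ι ι A)
    (e : A) : CStarMatrix ι ι A :=
  CStarMatrix.ofMatrix (fun i l => m i l • (1 : A)) + dg ι e * Y * dg ι e

/-- Square matrices are limits of matrices which are left invertible up to a matrix with values
in the room `c` and a matrix of small rank. -/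
def PC {ν : Type} [Fintype ν] [DecidableEq ν] (c : CStarMatrix ν ν A) : Prop :=
  ∀ (κ : Type) [Fintype κ] [DecidableEq κ] (x : CStarMatrix κ κ A) (η θ : ℝ), 0 < η → 0 < θ →
    ∃ (x' : CStarMatrix κ κ A) (y : CStarMatrix ν κ A) (a : CStarMatrix κ κ A)
      (b : CStarMatrix κ ν A) (b' L : CStarMatrix κ κ A), ‖x - x'‖ ≤ η ∧ 0 ≤ L ∧
      (∀ (φ : TState A) (σ : QTrace A), IsQ φ σ → σ.dim L ≤ θ) ∧
      a * x' + b * (c * y) + b' * L = 1

end

/-- An inequality in the crossed product gives an inequality in `A`. -/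
def CompXP : Prop := ∀ (A R : Type u) [CStarAlgebra A] [PartialOrder A] [StarOrderedRing A]
  [CStarAlgebra R] [PartialOrder R] [StarOrderedRing R] (G : Type) [Group G] [Fintype G]
  (α : G → A ≃⋆ₐ[ℂ] A) (k : A →⋆ₐ[ℂ] R) (w : G → R), IsAct α → IsCross α k w →
  ∀ (ν : Type) [Fintype ν] [DecidableEq ν] (b : CStarMatrix ν ν A) (e : A)
    (y : CStarMatrix ν Unit R) (h : R) (δ : ℝ), 0 ≤ b → (∀ g, mp (α g) b = b) → 0 ≤ h →
  one1 (k e) ≤ y.conjTranspose * mp k b * y + one1 h + δ • (1 : CStarMatrix Unit Unit R) →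
  ∃ (v : G → CStarMatrix ν Unit A) (l : A), 0 ≤ l ∧
    one1 e ≤ ∑ g, (v g).conjTranspose * b * v g + one1 l + δ • (1 : CStarMatrix Unit Unit A) ∧
    ∀ (φ : TState A) (σ : QTrace A), IsQ φ σ → ∃ σ' : QTrace R,
      σ.dim (one1 l) ≤ Fintype.card G * σ'.dim (one1 h)

/-- The perturbation argument. -/
def PertP : Prop := ∀ (A : Type u) [CStarAlgebra A] [PartialOrder A] [StarOrderedRing A]
  (ν ι : Type) [Fintype ν] [DecidableEq ν] [Fintype ι] (c S Y : CStarMatrix ν ν A) (e : A)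
  (z : ι → CStarMatrix ν Unit A), 0 ≤ c → 0 ≤ e → 0 ≤ S → S = c * Y * c →
  (∀ i, (c * z i * one1 e) * (c * z i * one1 e).conjTranspose ≤ S) → ∀ θ : ℝ,
  (∀ δ ε : ℝ, 0 < δ → 0 < ε → ∃ (v : ι → CStarMatrix ν Unit A) (l : A), 0 ≤ l ∧ SmT θ l ∧
    one1 e ≤ ∑ i, (v i).conjTranspose * (c * (nE δ S * nE δ S) * c) * v i + one1 l +
      ε • (1 : CStarMatrix Unit Unit A)) →
  ∀ κ ε : ℝ, 0 < κ → 0 < ε → ∃ (z' : ι → CStarMatrix ν Unit A) (δ : ℝ) (l : A), 0 < δ ∧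
    0 ≤ l ∧ SmT θ l ∧ (∀ i, ‖c * z' i * one1 e - c * z i * one1 e‖ ≤ κ) ∧
    δ • one1 (cut e ε * cut e ε) ≤
      ∑ i, (c * z' i * one1 e).conjTranspose * (c * z' i * one1 e) + one1 (e * l * e)

/-- The rank of the complement of `S` in `c`. -/
def RkSP : Prop := ∀ (A : Type u) [CStarAlgebra A] [PartialOrder A] [StarOrderedRing A]
  (ν : Type) [Fintype ν] [DecidableEq ν] (c S : CStarMatrix ν ν A) (δ : ℝ), 0 ≤ c → 0 ≤ S →
  0 < δ → 0 ≤ c * (nE δ S * nE δ S) * c ∧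
    ∀ σ : QTrace A, σ.dim c ≤ σ.dim (c * (nE δ S * nE δ S) * c) + σ.dim S

/-- Room from comparison in the crossed product. -/
def RoomXP : Prop := ∀ (A R : Type u) [CStarAlgebra A] [PartialOrder A] [StarOrderedRing A]
  [CStarAlgebra R] [PartialOrder R] [StarOrderedRing R] (G : Type) [Group G] [Fintype G]
  [DecidableEq G] (α : G → A ≃⋆ₐ[ℂ] A) (k : A →⋆ₐ[ℂ] R) (w : G → R), IsAct α →
  IsCross α k w → ∀ (ν : Type) [Fintype ν] [DecidableEq ν] (c : CStarMatrix ν ν A) (e : A)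
  (r : ℝ), 0 ≤ c → (∀ g, mp (α g) c = c) → 0 ≤ e → (∀ g, α g e = e) → 0 ≤ r → TCG R r →
  (∀ σ : QTrace A, ((Fintype.card G : ℝ) ^ 2 + 1) * σ.dim (one1 e) + r < σ.dim c) →
  ∀ θ : ℝ, 0 < θ → RoomL (rep G c) e θ

/-- Room from comparison in the fixed point algebra. -/
def RoomBP : Prop := ∀ (A B : Type u) [CStarAlgebra A] [PartialOrder A] [StarOrderedRing A]
  [CStarAlgebra B] [PartialOrder B] [StarOrderedRing B] (G : Type) [Group G] [Fintype G]
  (α : G → A ≃⋆ₐ[ℂ] A) (j : B →⋆ₐ[ℂ] A), IsAct α → IsFix α j →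
  ∀ (ν : Type) [Fintype ν] [DecidableEq ν] (c : CStarMatrix ν ν B) (e : B) (m r : ℝ), 0 ≤ c →
  0 ≤ e → 0 ≤ m → 0 ≤ r → TCG B r →
  (∀ ω : QTrace B, ∃ σ : QTrace A,
    m * ((Fintype.card G : ℝ) + 1) * σ.dim (one1 (j e)) + r < ω.dim c ∧
    ∀ (κ : Type) [Fintype κ] [DecidableEq κ] (x : CStarMatrix κ κ B), 0 ≤ x →
      ω.dim x ≤ m * σ.dim (mp j x)) →
  ∀ θ : ℝ, 0 < θ → RoomL (mp j c) (j e) θ

/-- Matrices over `ℂ + e A e`. -/
def RectCP : Prop := ∀ (A : Type u) [CStarAlgebra A] [PartialOrder A] [StarOrderedRing A]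
  (ν : Type) [Fintype ν] [DecidableEq ν] (c : CStarMatrix ν ν A) (e : A), 0 ≤ c → 0 ≤ e →
  (∀ θ : ℝ, 0 < θ → RoomL c e θ) →
  ∀ (J : ℕ) (m : Matrix (Fin J) (Fin J) ℂ) (Y : CStarMatrix (Fin J) (Fin J) A)
    (Z : CStarMatrix ν (Fin J) A) (κ θ : ℝ), 0 < κ → 0 < θ →
  ∃ (m' : Matrix (Fin J) (Fin J) ℂ) (Y' : CStarMatrix (Fin J) (Fin J) A)
    (Z' : CStarMatrix ν (Fin J) A) (a : CStarMatrix (Fin J) (Fin J) A)
    (b : CStarMatrix (Fin J) ν A) (b' L : CStarMatrix (Fin J) (Fin J) A), 0 ≤ L ∧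
    (∀ (φ : TState A) (σ : QTrace A), IsQ φ σ → σ.dim L ≤ θ) ∧
    ‖fm m' Y' e - fm m Y e‖ ≤ κ ∧
    ‖c * Z' * dg (Fin J) e - c * Z * dg (Fin J) e‖ ≤ κ ∧
    a * fm m' Y' e + b * (c * Z' * dg (Fin J) e) + b' * L = 1

/-- From matrices over `ℂ + e A e` to matrices over `A`. -/
def PCGenP : Prop := ∀ (A : Type u) [CStarAlgebra A] [PartialOrder A] [StarOrderedRing A]
  (ν : Type) [Fintype ν] [DecidableEq ν] (c : CStarMatrix ν ν A) (e : A) (J : ℕ)
  (r : Fin J → A), 0 ≤ c → 0 ≤ e → ∑ i, r i * (e * e) * star (r i) = 1 →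
  (∀ θ : ℝ, 0 < θ → RoomL c e θ) → PC c

def AsrPCP : Prop := ∀ (A : Type u) [CStarAlgebra A] [PartialOrder A] [StarOrderedRing A],
  (∀ θ : ℝ, 0 < θ → ∃ (ν : Type) (_ : Fintype ν) (_ : DecidableEq ν) (c : CStarMatrix ν ν A),
    0 ≤ c ∧ (∀ (φ : TState A) (σ : QTrace A), IsQ φ σ → σ.dim c ≤ θ) ∧ PC c) → ASR A

/-- Small full matrices over the fixed point algebra. -/
def TFP : Prop := ∀ (A B : Type u) [CStarAlgebra A] [PartialOrder A] [StarOrderedRing A]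
  [CStarAlgebra B] [PartialOrder B] [StarOrderedRing B] (G : Type) [Group G] [Fintype G]
  (α : G → A ≃⋆ₐ[ℂ] A) (j : B →⋆ₐ[ℂ] A), IsAct α → IsFix α j → Simp A → NoFin A →
  Nonempty (TState A) → ∀ θ : ℝ, 0 < θ → ∃ (n : ℕ) (c : CStarMatrix (Fin n) (Fin n) B) (L : ℝ),
    0 ≤ c ∧ 0 < L ∧ (∀ ω : QTrace B, 1 ≤ L * ω.dim c) ∧ ∀ σ : QTrace A, σ.dim (mp j c) ≤ θ

/-- Tracial comparison in the crossed product gives approximate stable rank one. -/
def AsrXP : Prop := ∀ (A R : Type u) [CStarAlgebra A] [PartialOrder A] [StarOrderedRing A]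
  [CStarAlgebra R] [PartialOrder R] [StarOrderedRing R] (G : Type) [Group G] [Fintype G]
  (α : G → A ≃⋆ₐ[ℂ] A) (k : A →⋆ₐ[ℂ] R) (w : G → R), IsAct α → IsCross α k w → Simp A →
  NoFin A → (∀ r : ℝ, 0 < r → TCG R r) → ASR A

/-- Tracial comparison in the fixed point algebra gives approximate stable rank one. -/
def AsrFP : Prop := ∀ (A B : Type u) [CStarAlgebra A] [PartialOrder A] [StarOrderedRing A]
  [CStarAlgebra B] [PartialOrder B] [StarOrderedRing B] (G : Type) [Group G] [Fintype G]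
  (α : G → A ≃⋆ₐ[ℂ] A) (j : B →⋆ₐ[ℂ] A), IsAct α → IsFix α j → Simp A → NoFin A →
  (∀ r : ℝ, 0 < r → TCG B r) → ASR A

end RC
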